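import Pool.Agent.H10.Ball2

open Set

namespace Pool.Agent.Results.MP_c6db0f_gt.All
open Pool.Agent.H10.Ball

/-- `B(κ,a,b)` inside `ℝ^κ` with the product topology. -/
def B (κ : Type) (a b : κ → ℝ) : Set (κ → ℝ) :=
  {x | (∀ F : Finset κ, ∑ i ∈ F, |x i| ≤ 1) ∧ ∀ i, a i ≤ x i ∧ x i ≤ b i}

/-- the standing assumptions on the pair `a, b` -/
def Adm (κ : Type) (a b : κ → ℝ) : Prop :=
  (∀ i, -1 ≤ a i ∧ a i < b i ∧ b i ≤ 1) ∧
    ∃ s < (1 : ℝ), ∀ F : Finset κ, ∑ i ∈ F, (max 0 (a i) + max 0 (-b i)) ≤ s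

theorem N_le {κ : Type} (x : κ → ℝ) {s : ℝ} (hs : 0 ≤ s) :
    N x ≤ ENNReal.ofReal s ↔ ∀ F : Finset κ, ∑ i ∈ F, |x i| ≤ s := by
  simp only [N, ENNReal.tsum_eq_iSup_sum, iSup_le_iff, Real.enorm_eq_ofReal_abs]
  refine forall_congr' fun F => ?_
  rw [← ENNReal.ofReal_sum_of_nonneg fun _ _ => abs_nonneg _, ENNReal.ofReal_le_ofReal_iff hs]

theorem key {κ : Type} [Uncountable κ] {a b : κ → ℝ} (h : Adm κ a b) :
    Nonempty (S (Om κ) ≃ₜ B κ a b) := by
  obtain ⟨h, s, s1, hs⟩ := h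
  let m : κ → ℝ := fun i => max (a i) (min 0 (b i))
  have m1 : ∀ i, |m i| = max 0 (a i) + max 0 (-b i) := fun i => by
    have := (h i).2.1
    simp only [m, max_def, min_def]
    split_ifs <;> first | rw [abs_of_nonneg (by linarith)] | rw [abs_of_nonpos (by linarith)]
    all_goals linarith
  have m2 : ∀ i t, a i ≤ t → t ≤ b i → |t| = |m i| + |t - m i| := fun i t h1 h2 => by
    simp only [m, max_def, min_def]
    split_ifs <;> simp only [abs_eq_max_neg, max_def] <;> split_ifs <;> linarith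
  have m3 : ∀ i, a i ≤ m i ∧ m i ≤ b i := fun i =>
    ⟨le_max_left _ _, max_le (h i).2.1.le (min_le_right _ _)⟩
  have s0 : 0 ≤ s := by simpa using hs ∅
  have n1 : N m < 1 := ((N_le m s0).2 (by simpa only [m1] using hs)).trans_lt
    (ENNReal.ofReal_lt_one.2 s1)
  obtain ⟨ρ, ρ0, hρ⟩ : ∃ ρ > 0, N m + ENNReal.ofReal ρ = 1 :=
    ⟨(1 - N m).toReal, ENNReal.toReal_pos (tsub_pos_of_lt n1).ne' (by simp), by
      rw [ENNReal.ofReal_toReal (by simp), add_tsub_cancel_of_le n1.le]⟩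
  classical
  let σ : κ → ℝ := fun i => if m i < b i then ρ else -ρ
  have σ0 : ∀ i, σ i ≠ 0 := fun i => by simp only [σ]; split_ifs <;> simp [ρ0.ne']
  have σ1 : ∀ i, |σ i| = ρ := fun i => by simp only [σ]; split_ifs <;> simp [ρ0.le]
  let J : κ → ℝ × ℝ := fun i =>
    if m i < b i then ((a i - m i) / ρ, (b i - m i) / ρ) else ((m i - b i) / ρ, (m i - a i) / ρ)
  have hJ : Nm J := fun i => by
    have := m3 i
    have := (h i).2.1
    simp only [J]
    split_ifs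
    all_goals exact ⟨div_nonpos_of_nonpos_of_nonneg (by linarith) ρ0.le, div_pos (by linarith) ρ0⟩
  obtain ⟨e, -⟩ := all hJ
  let Φ : (κ → ℝ) ≃ₜ (κ → ℝ) := Homeomorph.piCongrRight fun i =>
    (Homeomorph.mulLeft₀ (σ i) (σ0 i)).trans (Homeomorph.addLeft (m i))
  have e1 : ∀ y i, Φ y i = m i + σ i * y i := fun _ _ => rfl
  refine ⟨e.symm.trans (Φ.subtype fun y => ?_)⟩
  have e2 : ∀ i, ((J i).1 ≤ y i ∧ y i ≤ (J i).2) ↔ (a i ≤ Φ y i ∧ Φ y i ≤ b i) := fun i => by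
    simp only [e1, J, σ]
    split_ifs <;> simp only [div_le_iff₀ ρ0, le_div_iff₀ ρ0] <;> constructor <;>
      rintro ⟨u, v⟩ <;> constructor <;> linarith
  change _ ∧ _ ↔ _ ∧ _
  rw [forall_congr' e2, and_comm, ← N_le _ zero_le_one]
  refine and_congr_left fun hy => ?_
  have e3 : N (Φ y) = N m + ENNReal.ofReal ρ * N y := by
    rw [N, N, N, ← ENNReal.tsum_mul_left, ← ENNReal.tsum_add]
    refine tsum_congr fun i => ?_
    simp only [Real.enorm_eq_ofReal_abs]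
    rw [m2 i _ (hy i).1 (hy i).2, e1, add_sub_cancel_left, abs_mul, σ1,
      ENNReal.ofReal_add (abs_nonneg _) (by positivity), ENNReal.ofReal_mul ρ0.le]
  rw [e3, ENNReal.ofReal_one]
  conv_rhs => rw [← hρ]
  rw [ENNReal.add_le_add_iff_left (n1.trans ENNReal.one_lt_top).ne]
  conv_rhs => rhs; rw [← mul_one (ENNReal.ofReal ρ)]
  rw [ENNReal.mul_le_mul_iff_right (by simpa using ρ0) ENNReal.ofReal_ne_top]

theorem result (κ : Type) [Uncountable κ] (a b a' b' : κ → ℝ) (h : Adm κ a b)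
    (h' : Adm κ a' b') : Nonempty (B κ a b ≃ₜ B κ a' b') := by
  obtain ⟨e⟩ := key h
  obtain ⟨f⟩ := key h'
  exact ⟨e.symm.trans f⟩

end Pool.Agent.Results.MP_c6db0f_gt.All
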